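import Pool.Agent.H70.TIE.Stmts

/-!
# Project TIE: averages of powers of `d / φ(d)` (module AVG)
-/

set_option autoImplicit false

namespace TIE
open Finset

/-- `d / φ(d)` is the product of `p / (p - 1)`. -/
theorem avg_ratio {d : ℕ} (hd : d ≠ 0) :
    (d : ℝ) / d.totient = ∏ p ∈ d.primeFactors, (1 + 1 / ((p : ℝ) - 1)) := by
  have h := congrArg (Rat.cast : ℚ → ℝ) (Nat.totient_eq_mul_prod_factors d)
  push_cast at h
  have hd' : (d : ℝ) ≠ 0 := by exact_mod_cast hd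
  have hP : ∀ p ∈ d.primeFactors, (1 + 1 / ((p : ℝ) - 1)) * (1 - (p : ℝ)⁻¹) = 1 := by
    intro p hp
    have h2 : (2 : ℝ) ≤ p := by exact_mod_cast (Nat.prime_of_mem_primeFactors hp).two_le
    have h3 : (p : ℝ) - 1 ≠ 0 := by linarith
    have h4 : (p : ℝ) ≠ 0 := by linarith
    field_simp
    ring
  have hprod : (∏ p ∈ d.primeFactors, (1 + 1 / ((p : ℝ) - 1))) *
      (∏ p ∈ d.primeFactors, (1 - (p : ℝ)⁻¹)) = 1 := by
    rw [← Finset.prod_mul_distrib]
    exact Finset.prod_eq_one hP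
  have hne : (∏ p ∈ d.primeFactors, (1 - (p : ℝ)⁻¹)) ≠ 0 := by
    intro h0
    rw [h0, mul_zero] at hprod
    exact zero_ne_one hprod
  rw [h, div_eq_iff (mul_ne_zero hd' hne), mul_left_comm, hprod, mul_one]

/-- `(1 + x) ^ K ≤ 1 + (2 ^ K - 1) x` on the unit interval. -/
theorem avg_pow {x : ℝ} (h0 : 0 ≤ x) (h1 : x ≤ 1) (K : ℕ) :
    (1 + x) ^ K ≤ 1 + (2 ^ K - 1) * x := by
  induction K with
  | zero => simp
  | succ K ih =>
    have h2 : (1 : ℝ) ≤ 2 ^ K := one_le_pow₀ (by norm_num)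
    have h3 : (2 ^ K - 1) * (x * x) ≤ (2 ^ K - 1) * x :=
      mul_le_mul_of_nonneg_left (mul_le_of_le_one_left h0 h1) (by linarith)
    calc (1 + x) ^ (K + 1) = (1 + x) ^ K * (1 + x) := pow_succ _ _
      _ ≤ (1 + (2 ^ K - 1) * x) * (1 + x) := by gcongr
      _ = 1 + 2 ^ K * x + (2 ^ K - 1) * (x * x) := by ring
      _ ≤ 1 + 2 ^ K * x + (2 ^ K - 1) * x := by linarith
      _ = 1 + (2 ^ (K + 1) - 1) * x := by ring

/-- The product over the primes up to `h`. -/
theorem avg_prod (K h : ℕ) :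
    ∏ p ∈ (Icc 1 h).filter Nat.Prime, (1 + (2 ^ K / ((p : ℝ) - 1)) / p) ≤
      Real.exp (2 ^ K) := by
  have hpos : ∀ p ∈ (Icc 1 h).filter Nat.Prime, (2 : ℝ) ≤ p := fun p hp => by
    exact_mod_cast (mem_filter.1 hp).2.two_le
  have h1 : ∏ p ∈ (Icc 1 h).filter Nat.Prime, (1 + (2 ^ K / ((p : ℝ) - 1)) / p) ≤
      ∏ p ∈ (Icc 1 h).filter Nat.Prime, Real.exp ((2 ^ K / ((p : ℝ) - 1)) / p) := by
    refine Finset.prod_le_prod (fun p hp => ?_) fun p hp => ?_
    · have := hpos p hp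
      have h3 : 0 < (p : ℝ) - 1 := by linarith
      positivity
    · rw [add_comm]
      exact Real.add_one_le_exp _
  refine h1.trans ?_
  rw [← Real.exp_sum]
  refine Real.exp_le_exp.2 ?_
  have h2 : ∑ p ∈ (Icc 1 h).filter Nat.Prime, (2 ^ K / ((p : ℝ) - 1)) / p ≤
      ∑ p ∈ Icc 2 (h + 1), 2 ^ K * (1 / ((p : ℝ) - 1) - 1 / p) := by
    have e : ∀ p ∈ (Icc 1 h).filter Nat.Prime, (2 ^ K / ((p : ℝ) - 1)) / p =
        2 ^ K * (1 / ((p : ℝ) - 1) - 1 / p) := fun p hp => by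
      have := hpos p hp
      have h3 : (p : ℝ) - 1 ≠ 0 := by linarith
      have h4 : (p : ℝ) ≠ 0 := by linarith
      field_simp
      ring
    rw [Finset.sum_congr rfl e]
    refine Finset.sum_le_sum_of_subset_of_nonneg (fun p hp => ?_) fun p hp _ => ?_
    · have h5 := mem_filter.1 hp
      have h6 := mem_Icc.1 h5.1
      exact mem_Icc.2 ⟨h5.2.two_le, by omega⟩
    · have h5 : (2 : ℝ) ≤ p := by exact_mod_cast (mem_Icc.1 hp).1
      have h6 : 1 / (p : ℝ) ≤ 1 / ((p : ℝ) - 1) :=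
        one_div_le_one_div_of_le (by linarith) (by linarith)
      have : (0 : ℝ) ≤ 2 ^ K := by positivity
      exact mul_nonneg this (by linarith)
  refine h2.trans ?_
  have h3 : ∀ n : ℕ, ∑ p ∈ Icc 2 (n + 1), (2 : ℝ) ^ K * (1 / ((p : ℝ) - 1) - 1 / p) =
      2 ^ K * (1 - 1 / (n + 1)) := by
    intro n
    induction n with
    | zero => simp
    | succ n ih =>
      rw [Finset.sum_Icc_succ_top (by omega), ih]
      push_cast
      have : (n : ℝ) + 1 ≠ 0 := by positivity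
      have : (n : ℝ) + 1 + 1 ≠ 0 := by positivity
      rw [add_sub_cancel_right]
      ring
  rw [h3]
  have h4 : (0 : ℝ) ≤ 1 / (h + 1) := by positivity
  have h5 : (0 : ℝ) ≤ 2 ^ K := by positivity
  nlinarith

theorem AVG : S_AVG := by
  intro K
  refine ⟨Real.exp (2 ^ K), Real.exp_pos _, fun h hh => ?_⟩
  obtain ⟨g, hg⟩ : ∃ g : ℕ → ℝ, g = fun p : ℕ => (2 : ℝ) ^ K / ((p : ℝ) - 1) := ⟨_, rfl⟩
  have hg0 : ∀ p : ℕ, p.Prime → 0 ≤ g p := fun p hp => by
    have h2 : (2 : ℝ) ≤ p := by exact_mod_cast hp.two_le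
    have h3 : 0 < (p : ℝ) - 1 := by linarith
    rw [hg]
    positivity
  have hP0 : ∀ s ⊆ (Icc 1 h).filter Nat.Prime, 0 ≤ ∏ p ∈ s, g p := fun s hs =>
    Finset.prod_nonneg fun p hp => hg0 p (mem_filter.1 (hs hp)).2
  have h1 : ∀ d ∈ Icc 1 h, ((d : ℝ) / d.totient) ^ K ≤
      ∑ s ∈ ((Icc 1 h).filter Nat.Prime).powerset,
        if s ⊆ d.primeFactors then ∏ p ∈ s, g p else 0 := by
    intro d hd
    have hd' := mem_Icc.1 hd
    have hd0 : d ≠ 0 := by omega
    rw [avg_ratio hd0, ← Finset.prod_pow]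
    have e1 : ∏ p ∈ d.primeFactors, (1 + 1 / ((p : ℝ) - 1)) ^ K ≤
        ∏ p ∈ d.primeFactors, (1 + g p) := by
      refine Finset.prod_le_prod (fun p hp => ?_) fun p hp => ?_
      · have h2 : (2 : ℝ) ≤ p := by exact_mod_cast (Nat.prime_of_mem_primeFactors hp).two_le
        have h3 : 0 < (p : ℝ) - 1 := by linarith
        positivity
      · have h2 : (2 : ℝ) ≤ p := by exact_mod_cast (Nat.prime_of_mem_primeFactors hp).two_le
        have h3 : 0 < (p : ℝ) - 1 := by linarith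
        have h4 : 1 / ((p : ℝ) - 1) ≤ 1 := by
          rw [div_le_one h3]
          linarith
        have h5 : 0 ≤ 1 / ((p : ℝ) - 1) := by positivity
        refine (avg_pow h5 h4 K).trans ?_
        have e : g p = 2 ^ K * (1 / ((p : ℝ) - 1)) := by
          rw [hg]
          ring
        rw [e]
        linarith
    refine e1.trans ?_
    rw [Finset.prod_one_add]
    rw [← Finset.sum_filter]
    refine Finset.sum_le_sum_of_subset_of_nonneg (fun s hs => ?_) fun s hs _ => ?_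
    · rw [mem_powerset] at hs
      refine mem_filter.2 ⟨mem_powerset.2 fun p hp => ?_, hs⟩
      have h2 := hs hp
      have h3 := Nat.prime_of_mem_primeFactors h2
      have h4 := Nat.le_of_dvd (by omega) (Nat.dvd_of_mem_primeFactors h2)
      exact mem_filter.2 ⟨mem_Icc.2 ⟨h3.one_lt.le, by omega⟩, h3⟩
    · exact hP0 s (mem_powerset.1 (mem_filter.1 hs).1)
  refine (Finset.sum_le_sum h1).trans ?_
  rw [Finset.sum_comm]
  have h2 : ∀ s ∈ ((Icc 1 h).filter Nat.Prime).powerset,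
      ∑ d ∈ Icc 1 h, (if s ⊆ d.primeFactors then ∏ p ∈ s, g p else 0) ≤
        h * ∏ p ∈ s, (g p / p) := by
    intro s hs
    rw [mem_powerset] at hs
    have hsp : ∀ p ∈ s, p.Prime := fun p hp => (mem_filter.1 (hs hp)).2
    rw [← Finset.sum_filter, Finset.sum_const, nsmul_eq_mul, Finset.prod_div_distrib]
    have e1 : (((Icc 1 h).filter (fun d => s ⊆ d.primeFactors)).card : ℝ) ≤
        h / ∏ p ∈ s, (p : ℝ) := by
      have e2 : (Icc 1 h).filter (fun d => s ⊆ d.primeFactors) ⊆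
          (Ioc 0 h).filter (fun d => (∏ p ∈ s, p) ∣ d) := by
        intro d hd
        have h3 := mem_filter.1 hd
        have h4 := mem_Icc.1 h3.1
        refine mem_filter.2 ⟨mem_Ioc.2 ⟨by omega, h4.2⟩, ?_⟩
        exact Finset.prod_primes_dvd d (fun p hp => (hsp p hp).prime)
          fun p hp => Nat.dvd_of_mem_primeFactors (h3.2 hp)
      have e3 := Finset.card_le_card e2
      rw [Nat.Ioc_filter_dvd_card_eq_div] at e3
      have e4 : (((Icc 1 h).filter (fun d => s ⊆ d.primeFactors)).card : ℝ) ≤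
          ((h / ∏ p ∈ s, p : ℕ) : ℝ) := by exact_mod_cast e3
      refine e4.trans (Nat.cast_div_le.trans (le_of_eq ?_))
      push_cast
      rfl
    have e5 : 0 ≤ ∏ p ∈ s, g p := hP0 s hs
    calc _ ≤ (h / ∏ p ∈ s, (p : ℝ)) * ∏ p ∈ s, g p := by gcongr
      _ = h * ((∏ p ∈ s, g p) / ∏ p ∈ s, (p : ℝ)) := by ring
  refine (Finset.sum_le_sum h2).trans ?_
  rw [← Finset.mul_sum, ← Finset.prod_one_add, mul_comm]
  refine mul_le_mul_of_nonneg_right ?_ (Nat.cast_nonneg h)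
  rw [hg]
  exact avg_prod K h

end TIE
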