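import Pool.Agent.H70.TIE.Stmts

/-!
# Project TIE: average over `K`-subsets (module JAV)
-/

set_option autoImplicit false

namespace TIE
open Finset

/-- the ratio `d / φ(d)` -/
noncomputable def gr (d : ℕ) : ℝ := (d : ℝ) / d.totient

theorem gr_one {d : ℕ} (hd : d ≠ 0) : 1 ≤ gr d := by
  unfold gr
  have h : 0 < d.totient := Nat.totient_pos.2 (Nat.pos_of_ne_zero hd)
  rw [one_le_div (by exact_mod_cast h)]
  exact_mod_cast Nat.totient_le d

theorem gr_mul {a b : ℕ} (ha : a ≠ 0) (hb : b ≠ 0) : gr (a * b) ≤ gr a * gr b := by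
  unfold gr
  have h1 : 0 < a.totient := Nat.totient_pos.2 (Nat.pos_of_ne_zero ha)
  have h2 : 0 < b.totient := Nat.totient_pos.2 (Nat.pos_of_ne_zero hb)
  rw [div_mul_div_comm]
  push_cast
  refine div_le_div_of_nonneg_left (by positivity) (by positivity) ?_
  exact_mod_cast Nat.totient_super_multiplicative a b

theorem gr_prod {ι : Type*} (s : Finset ι) (f : ι → ℕ) (hf : ∀ i ∈ s, f i ≠ 0) :
    gr (∏ i ∈ s, f i) ≤ ∏ i ∈ s, gr (f i) := by
  classical
  induction s using Finset.induction_on with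
  | empty => simp [gr]
  | insert a s ha ih =>
    rw [Finset.prod_insert ha, Finset.prod_insert ha]
    have h1 : ∀ i ∈ s, f i ≠ 0 := fun i hi => hf i (mem_insert_of_mem hi)
    have h2 : f a ≠ 0 := hf a (mem_insert_self a s)
    refine (gr_mul h2 (Finset.prod_ne_zero_iff.2 h1)).trans ?_
    exact mul_le_mul_of_nonneg_left (ih h1) (by linarith [gr_one h2])

/-- A product of numbers at least one. -/
theorem prod_le_sum {ι : Type*} (s : Finset ι) (f : ι → ℝ) (hf : ∀ i ∈ s, 1 ≤ f i) {M : ℕ}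
    (hM : s.card ≤ M) : ∏ i ∈ s, f i ≤ 1 + ∑ i ∈ s, f i ^ M := by
  classical
  rcases s.eq_empty_or_nonempty with h0 | h0
  · simp [h0]
  · obtain ⟨j, hj, hmax⟩ := s.exists_max_image f h0
    have h1 : ∏ i ∈ s, f i ≤ ∏ _i ∈ s, f j :=
      Finset.prod_le_prod (fun i hi => by linarith [hf i hi]) fun i hi => hmax i hi
    rw [Finset.prod_const] at h1
    have h2 : f j ^ s.card ≤ f j ^ M := pow_le_pow_right₀ (hf j hj) hM
    have h3 : f j ^ M ≤ ∑ i ∈ s, f i ^ M :=
      Finset.single_le_sum (f := fun i => f i ^ M) (fun i hi => by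
        have := hf i hi
        positivity) hj
    linarith

/-- the pairs of `J` -/
def PJ (J : Finset ℕ) : Finset (ℕ × ℕ) := (J ×ˢ J).filter fun x => x.1 < x.2

theorem dj_pj (J : Finset ℕ) : DJ J = ∏ x ∈ PJ J, (x.2 - x.1) := by
  unfold DJ PJ
  rw [Finset.prod_filter, Finset.prod_product]
  refine Finset.prod_congr rfl fun i _ => ?_
  rw [Finset.prod_filter]

/-- subsets with two given elements -/
theorem card_two (K h i j : ℕ) (hij : i ≠ j) :
    ((((Icc 1 h).powersetCard K).filter (fun J => i ∈ J ∧ j ∈ J)).card : ℝ) * (h : ℝ) ^ 2 ≤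
      (h : ℝ) ^ K := by
  classical
  rcases Nat.lt_or_ge K 2 with hK | hK
  · have : ((Icc 1 h).powersetCard K).filter (fun J => i ∈ J ∧ j ∈ J) = ∅ := by
      refine Finset.filter_eq_empty_iff.2 fun J hJ hm => ?_
      have h1 := (mem_powersetCard.1 hJ).2
      have h2 : ({i, j} : Finset ℕ) ⊆ J := by
        intro x hx
        rcases mem_insert.1 hx with rfl | hx
        · exact hm.1
        · rw [mem_singleton.1 hx]
          exact hm.2
      have h3 := Finset.card_le_card h2
      rw [Finset.card_pair hij] at h3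
      omega
    rw [this]
    simp
  · obtain ⟨k, rfl⟩ : ∃ k, K = k + 2 := ⟨K - 2, by omega⟩
    have h1 : (((Icc 1 h).powersetCard (k + 2)).filter (fun J => i ∈ J ∧ j ∈ J)).card ≤
        ((Icc 1 h).powersetCard k).card := by
      refine Finset.card_le_card_of_injOn (fun J => (J.erase i).erase j) (fun J hJ => ?_) ?_
      · have h2 := mem_filter.1 (Finset.mem_coe.1 hJ)
        have h3 := mem_powersetCard.1 h2.1
        refine Finset.mem_coe.2 (mem_powersetCard.2 ⟨fun x hx => h3.1
          (mem_of_mem_erase (mem_of_mem_erase hx)), ?_⟩)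
        rw [Finset.card_erase_of_mem (mem_erase.2 ⟨hij.symm, h2.2.2⟩),
          Finset.card_erase_of_mem h2.2.1, h3.2]
        rfl
      · intro J hJ J' hJ' he
        have h2 := (mem_filter.1 (Finset.mem_coe.1 hJ)).2
        have h3 := (mem_filter.1 (Finset.mem_coe.1 hJ')).2
        have e1 : insert i (insert j ((J.erase i).erase j)) = J := by
          rw [Finset.insert_erase (mem_erase.2 ⟨hij.symm, h2.2⟩), Finset.insert_erase h2.1]
        have e2 : insert i (insert j ((J'.erase i).erase j)) = J' := by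
          rw [Finset.insert_erase (mem_erase.2 ⟨hij.symm, h3.2⟩), Finset.insert_erase h3.1]
        rw [← e1, ← e2]
        exact congrArg (fun s => insert i (insert j s)) he
    rw [Finset.card_powersetCard, Nat.card_Icc] at h1
    have h2 : (((Icc 1 h).powersetCard (k + 2)).filter (fun J => i ∈ J ∧ j ∈ J)).card ≤
        h ^ k := h1.trans ((Nat.choose_le_pow _ _).trans (by simp))
    have h3 : ((((Icc 1 h).powersetCard (k + 2)).filter (fun J => i ∈ J ∧ j ∈ J)).card : ℝ) ≤
        (h : ℝ) ^ k := by exact_mod_cast h2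
    rw [pow_add]
    exact mul_le_mul_of_nonneg_right h3 (by positivity)

theorem JAV (hA : S_AVG) : S_JAV := by
  classical
  intro K hK
  obtain ⟨C, hC, hA⟩ := hA (K * K ^ 2)
  refine ⟨1 + C, by linarith, fun h hh => ?_⟩
  have hh0 : (0 : ℝ) < h := by exact_mod_cast hh
  obtain ⟨M, hM⟩ : ∃ M, M = K ^ 2 := ⟨_, rfl⟩
  -- one set
  have h1 : ∀ J ∈ (Icc 1 h).powersetCard K, ((DJ J : ℝ) / (DJ J).totient) ^ K ≤
      1 + ∑ x ∈ PJ (Icc 1 h), if x.1 ∈ J ∧ x.2 ∈ J then gr (x.2 - x.1) ^ (K * K ^ 2) else 0 := by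
    intro J hJ
    have h2 := mem_powersetCard.1 hJ
    have h3 : ∀ x ∈ PJ J, x.2 - x.1 ≠ 0 := fun x hx => by
      have := (mem_filter.1 hx).2
      omega
    have h4 : (DJ J : ℝ) / (DJ J).totient = gr (∏ x ∈ PJ J, (x.2 - x.1)) := by
      rw [← dj_pj]
      rfl
    rw [h4]
    have h5 : gr (∏ x ∈ PJ J, (x.2 - x.1)) ^ K ≤ ∏ x ∈ PJ J, gr (x.2 - x.1) ^ K := by
      rw [Finset.prod_pow]
      refine pow_le_pow_left₀ ?_ (gr_prod _ _ h3) K
      linarith [gr_one (Finset.prod_ne_zero_iff.2 h3)]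
    refine h5.trans ?_
    have h6 : (PJ J).card ≤ K ^ 2 := by
      refine (Finset.card_filter_le _ _).trans ?_
      rw [Finset.card_product, h2.2, pow_two]
    refine (prod_le_sum (PJ J) (fun x => gr (x.2 - x.1) ^ K) (fun x hx =>
      one_le_pow₀ (gr_one (h3 x hx))) h6).trans ?_
    rw [← Finset.sum_filter]
    refine add_le_add_right ?_ 1 |>.trans (le_refl _)
    refine le_trans (le_of_eq ?_) (Finset.sum_le_sum_of_subset_of_nonneg (s := PJ J)
      (f := fun x => gr (x.2 - x.1) ^ (K * K ^ 2)) (fun x hx => ?_) fun x hx _ => ?_)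
    · exact Finset.sum_congr rfl fun x _ => (pow_mul _ _ _).symm
    · have h7 := mem_filter.1 hx
      have h8 := mem_product.1 h7.1
      exact mem_filter.2 ⟨mem_filter.2 ⟨mem_product.2 ⟨h2.1 h8.1, h2.1 h8.2⟩, h7.2⟩, h8⟩
    · have h7 := (mem_filter.1 (mem_filter.1 hx).1).2
      have := gr_one (d := x.2 - x.1) (by omega)
      positivity
  refine (Finset.sum_le_sum h1).trans ?_
  rw [Finset.sum_add_distrib, Finset.sum_comm]
  have e1 : ∑ _J ∈ (Icc 1 h).powersetCard K, (1 : ℝ) ≤ (h : ℝ) ^ K := by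
    rw [Finset.sum_const, Finset.card_powersetCard, Nat.card_Icc, nsmul_eq_mul, mul_one]
    have : (h + 1 - 1).choose K ≤ h ^ K := (Nat.choose_le_pow _ _).trans (by simp)
    exact_mod_cast this
  have e2 : ∑ x ∈ PJ (Icc 1 h), ∑ J ∈ (Icc 1 h).powersetCard K,
      (if x.1 ∈ J ∧ x.2 ∈ J then gr (x.2 - x.1) ^ (K * K ^ 2) else 0) ≤ C * (h : ℝ) ^ K := by
    have h2 : ∀ x ∈ PJ (Icc 1 h), ∑ J ∈ (Icc 1 h).powersetCard K,
        (if x.1 ∈ J ∧ x.2 ∈ J then gr (x.2 - x.1) ^ (K * K ^ 2) else 0) ≤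
        (h : ℝ) ^ K / (h : ℝ) ^ 2 * gr (x.2 - x.1) ^ (K * K ^ 2) := by
      intro x hx
      have h3 := (mem_filter.1 hx).2
      have h4 := gr_one (d := x.2 - x.1) (by omega)
      rw [← Finset.sum_filter, Finset.sum_const, nsmul_eq_mul]
      refine mul_le_mul_of_nonneg_right ?_ (by positivity)
      rw [le_div_iff₀ (by positivity)]
      exact card_two K h x.1 x.2 h3.ne
    refine (Finset.sum_le_sum h2).trans ?_
    rw [← Finset.mul_sum]
    have h3 : ∑ x ∈ PJ (Icc 1 h), gr (x.2 - x.1) ^ (K * K ^ 2) ≤ h * (C * h) := by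
      unfold PJ
      rw [Finset.sum_filter, Finset.sum_product]
      have h4 : ∀ i ∈ Icc 1 h, ∑ j ∈ Icc 1 h,
          (if i < j then gr (j - i) ^ (K * K ^ 2) else 0) ≤ C * h := by
        intro i hi
        refine le_trans ?_ (hA h hh)
        rw [← Finset.sum_filter]
        have h5 : ∑ j ∈ (Icc 1 h).filter (fun j => i < j), gr (j - i) ^ (K * K ^ 2) =
            ∑ d ∈ ((Icc 1 h).filter (fun j => i < j)).image (fun j => j - i),
              gr d ^ (K * K ^ 2) := by
          rw [Finset.sum_image]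
          intro j hj j' hj' he
          have := (mem_filter.1 (Finset.mem_coe.1 hj)).2
          have := (mem_filter.1 (Finset.mem_coe.1 hj')).2
          simp only at he
          omega
        rw [h5]
        refine Finset.sum_le_sum_of_subset_of_nonneg (fun d hd => ?_) fun d hd _ => ?_
        · obtain ⟨j, hj, rfl⟩ := mem_image.1 hd
          have h6 := mem_filter.1 hj
          have h7 := mem_Icc.1 h6.1
          exact mem_Icc.2 ⟨by omega, by omega⟩
        · have h6 := mem_Icc.1 hd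
          have := gr_one (d := d) (by omega)
          have h8 : 0 ≤ gr d ^ (K * K ^ 2) := by positivity
          exact h8
      refine (Finset.sum_le_sum h4).trans ?_
      rw [Finset.sum_const, Nat.card_Icc, nsmul_eq_mul]
      simp
    calc (h : ℝ) ^ K / (h : ℝ) ^ 2 * ∑ x ∈ PJ (Icc 1 h), gr (x.2 - x.1) ^ (K * K ^ 2) ≤
        (h : ℝ) ^ K / (h : ℝ) ^ 2 * (h * (C * h)) := by gcongr
      _ = C * (h : ℝ) ^ K := by
          field_simp
  linarith

end TIE
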