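import Pool.Agent.H70.TIE.Stmts

/-!
# Project TIE: moments of the number of primes in short intervals (module MOM)
-/

set_option autoImplicit false

namespace TIE
open Finset

theorem pow_choose (X K : ℕ) (hK : 1 ≤ K) :
    (X : ℝ) ^ K ≤ (2 * K : ℝ) ^ K * (1 + (X.choose K : ℝ)) := by
  have hK' : (1 : ℝ) ≤ K := by exact_mod_cast hK
  rcases Nat.lt_or_ge X (2 * K) with h | h
  · have h1 : (X : ℝ) ≤ 2 * K := by exact_mod_cast h.le
    have h2 : (X : ℝ) ^ K ≤ (2 * K : ℝ) ^ K := pow_le_pow_left₀ (Nat.cast_nonneg X) h1 K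
    have h3 : (0 : ℝ) ≤ (2 * K : ℝ) ^ K * (X.choose K : ℝ) := by positivity
    linarith
  · have h1 := Nat.pow_le_choose (α := ℝ) K X
    have h2 : (X : ℝ) ≤ 2 * ((X + 1 - K : ℕ) : ℝ) := by
      have : X ≤ 2 * (X + 1 - K) := by omega
      exact_mod_cast this
    have h3 : (X : ℝ) ^ K ≤ (2 * ((X + 1 - K : ℕ) : ℝ)) ^ K :=
      pow_le_pow_left₀ (Nat.cast_nonneg X) h2 K
    rw [mul_pow] at h3
    have h4 : (0 : ℝ) < (K.factorial : ℝ) := by exact_mod_cast K.factorial_pos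
    rw [div_le_iff₀ h4] at h1
    have h5 : (K.factorial : ℝ) ≤ (K : ℝ) ^ K := by exact_mod_cast Nat.factorial_le_pow K
    have h6 : (X.choose K : ℝ) * K.factorial ≤ (X.choose K : ℝ) * (K : ℝ) ^ K := by gcongr
    have h7 : (2 : ℝ) ^ K * ((X + 1 - K : ℕ) : ℝ) ^ K ≤
        2 ^ K * ((X.choose K : ℝ) * (K : ℝ) ^ K) := by
      have : (((X + 1 - K : ℕ) ^ K : ℕ) : ℝ) ≤ (X.choose K : ℝ) * (K : ℝ) ^ K := by
        exact_mod_cast h1.trans h6
      push_cast at this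
      gcongr
    have h8 : (0 : ℝ) ≤ (2 * K : ℝ) ^ K := by positivity
    calc (X : ℝ) ^ K ≤ 2 ^ K * ((X.choose K : ℝ) * (K : ℝ) ^ K) := h3.trans h7
      _ = (2 * K : ℝ) ^ K * (X.choose K : ℝ) := by rw [mul_pow]; ring
      _ ≤ (2 * K : ℝ) ^ K * (1 + (X.choose K : ℝ)) := by linarith

theorem xt_choose (K h y : ℕ) : ((Xt h y).choose K) =
    (((Icc 1 h).powersetCard K).filter (fun J => ∀ j ∈ J, (y + j).Prime)).card := by
  classical
  have e1 : Xt h y = ((Icc 1 h).filter (fun j => (y + j).Prime)).card := by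
    unfold Xt
    refine (Finset.card_bij (fun j _ => y + j) (fun j hj => ?_) (fun j _ j' _ he => by omega)
      fun n hn => ?_).symm
    · have h1 := mem_filter.1 hj
      have h2 := mem_Icc.1 h1.1
      exact mem_filter.2 ⟨mem_Ioc.2 ⟨by omega, by omega⟩, h1.2⟩
    · have h1 := mem_filter.1 hn
      have h2 := mem_Ioc.1 h1.1
      refine ⟨n - y, mem_filter.2 ⟨mem_Icc.2 ⟨by omega, by omega⟩, ?_⟩, by omega⟩
      rw [Nat.add_sub_cancel' h2.1.le]
      exact h1.2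
  rw [e1, ← Finset.card_powersetCard]
  congr 1
  ext J
  rw [mem_powersetCard, mem_filter, mem_powersetCard]
  constructor
  · rintro ⟨h1, h2⟩
    exact ⟨⟨fun j hj => (mem_filter.1 (h1 hj)).1, h2⟩, fun j hj => (mem_filter.1 (h1 hj)).2⟩
  · rintro ⟨⟨h1, h2⟩, h3⟩
    exact ⟨fun j hj => mem_filter.2 ⟨h1 hj, h3 j hj⟩, h2⟩

theorem MOM (hT : S_KT) (hJ : S_JAV) : S_MOM := by
  classical
  intro K hK
  obtain ⟨C₁, hC₁, N₁, hT⟩ := hT K hK
  obtain ⟨C₂, hC₂, hJ⟩ := hJ K hK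
  obtain ⟨B, hB⟩ : ∃ B : ℝ, B = (2 * K : ℝ) ^ K := ⟨_, rfl⟩
  have hK' : (1 : ℝ) ≤ K := by exact_mod_cast hK
  have hB0 : 0 < B := by rw [hB]; positivity
  refine ⟨B * (1 + C₁ * C₂), by positivity, max N₁ 3, fun N h hN hh => ?_⟩
  have hN1 : N₁ ≤ N := (le_max_left _ _).trans hN
  have hN3 : 3 ≤ N := (le_max_right _ _).trans hN
  have hlog : 0 < Real.log N := Real.log_pos (by exact_mod_cast (by omega : 1 < N))
  have hh0 : (0 : ℝ) < h := hlog.trans_le hh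
  have hh1 : 1 ≤ h := by exact_mod_cast hh0
  have hN0 : (0 : ℝ) ≤ N := Nat.cast_nonneg N
  have h1 : ∑ y ∈ Icc 1 N, (Xt h y : ℝ) ^ K ≤ ∑ y ∈ Icc 1 N, B * (1 + ((Xt h y).choose K : ℝ)) :=
    Finset.sum_le_sum fun y _ => by
      rw [hB]
      exact pow_choose _ _ hK
  refine h1.trans ?_
  rw [← Finset.mul_sum, Finset.sum_add_distrib]
  have h2 : ∑ _y ∈ Icc 1 N, (1 : ℝ) ≤ N * (h / Real.log N) ^ K := by
    rw [Finset.sum_const, Nat.card_Icc, nsmul_eq_mul, mul_one]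
    have : (1 : ℝ) ≤ (h / Real.log N) ^ K := one_le_pow₀ (by rw [one_le_div hlog]; exact hh)
    simp only [Nat.add_sub_cancel]
    exact le_mul_of_one_le_right hN0 this
  have h3 : ∑ y ∈ Icc 1 N, ((Xt h y).choose K : ℝ) ≤
      C₁ * C₂ * (N * (h / Real.log N) ^ K) := by
    have e1 : ∀ y ∈ Icc 1 N, ((Xt h y).choose K : ℝ) =
        ∑ J ∈ (Icc 1 h).powersetCard K, if (∀ j ∈ J, (y + j).Prime) then (1 : ℝ) else 0 := by
      intro y _
      rw [xt_choose, ← Finset.sum_filter, Finset.sum_const, nsmul_eq_mul, mul_one]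
    rw [Finset.sum_congr rfl e1, Finset.sum_comm]
    have e2 : ∀ J ∈ (Icc 1 h).powersetCard K,
        ∑ y ∈ Icc 1 N, (if (∀ j ∈ J, (y + j).Prime) then (1 : ℝ) else 0) ≤
        C₁ * N / (Real.log N) ^ K * ((DJ J : ℝ) / (DJ J).totient) ^ K := by
      intro J hJm
      rw [← Finset.sum_filter, Finset.sum_const, nsmul_eq_mul, mul_one]
      exact hT N hN1 J (mem_powersetCard.1 hJm).2
    refine (Finset.sum_le_sum e2).trans ?_
    rw [← Finset.mul_sum]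
    calc C₁ * N / (Real.log N) ^ K * ∑ J ∈ (Icc 1 h).powersetCard K,
          ((DJ J : ℝ) / (DJ J).totient) ^ K ≤
          C₁ * N / (Real.log N) ^ K * (C₂ * (h : ℝ) ^ K) :=
          mul_le_mul_of_nonneg_left (hJ h hh1) (by positivity)
      _ = C₁ * C₂ * (N * (h / Real.log N) ^ K) := by
          rw [div_pow]
          ring
  calc B * (∑ _y ∈ Icc 1 N, (1 : ℝ) + ∑ y ∈ Icc 1 N, ((Xt h y).choose K : ℝ)) ≤
        B * (N * (h / Real.log N) ^ K + C₁ * C₂ * (N * (h / Real.log N) ^ K)) :=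
        mul_le_mul_of_nonneg_left (add_le_add h2 h3) hB0.le
    _ = B * (1 + C₁ * C₂) * N * (h / Real.log N) ^ K := by ring

end TIE
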